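import Pool.Agent.Helper99.CC.Fin
import Pool.Agent.Helper50.CV.SloS

/-! Exact entropy calculus, curved leaves: the slopes theorem of Helper50 (CV/SloS) closes the chain. The finite leaf
statement for curved lines over a flat real base without tool hypotheses. -/

set_option autoImplicit false

namespace Pool.Agent.Helper99.CC

open Filter Pool.Agent.Helper69.RK
open Pool.Agent.Helper31.EC Pool.Agent.Helper31.EC.Sp QS
open Pool.Agent.Helper38.NS Pool.Agent.Helper38.NS.FB Pool.Agent.Helper99.EC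
open Pool.Agent.Helper50.CV (CB)

noncomputable section

variable {T : Sp} {d k : ℕ}

/-- the slopes theorem holds -/
theorem slo_all (s : CB T d k) (hy : s.Hyp) (hq : Rl s.fb.q ⊥) {a0 c : ℝ} (ha0 : a0 < 1) (hc : 0 < c)
    (hu : UnS s.fb.z (s.fb.iT ⊔ s.fb.iY) a0 c) : SLO s (2 * k * (d + 1)) := by
  intro W p hst hdet
  obtain ⟨W', w, hw⟩ := s.slopesK hy hq hc ha0 hu hst hdet W (Pj.id W)
  have e0 : ∀ x : W.L, (w.comp (Pj.id W)).map x = w.map x := by
    intro x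
    rw [Pj.comp_map, Pj.id_map]
  have e1 : ∀ x : QS W, (w.comp (Pj.id W)).qs x = w.qs x := by
    intro x
    rw [Pj.comp_qs, Pj.id_qs]
  refine ⟨W', w, fun j => ?_⟩
  obtain ⟨P, h1, h2, h3⟩ := hw 0 j
  refine ⟨P, ?_, h2, ?_⟩
  · rw [e0] at h1
    have h4 : w.map (vd (s.drs p) 1) = Finset.univ.sup fun i => (w.comp (p i)).map s.fb.iX := by
      rw [s.vd_drs p, w.map_finsup]
      apply Finset.sup_congr rfl
      intro i _
      rw [Pj.comp_map]
    rw [h4] at h1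
    exact h1
  · rw [e1] at h3
    simp only [e1] at h3
    rw [Pj.comp_qs, h3]
    congr 1
    congr 1
    funext a
    rw [Pj.comp_qs]

/-- potentials of stars in general position exist -/
theorem cpot_all (s : CB T d k) (hy : s.Hyp) (hq : Rl s.fb.q ⊥) {a0 c : ℝ} (ha0 : a0 < 1) (hc : 0 < c)
    (hu : UnS s.fb.z (s.fb.iT ⊔ s.fb.iY) a0 c) : CPOT s (2 * k * (d + 1) + k) :=
  cpot s (slo_all s hy hq ha0 hc hu) hy hq ha0 hc hu

/-- THE FINITE LEAF STATEMENT for curved lines over a flat real base, without tool hypotheses -/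
theorem finite_leaf_all (tr : FTC T d k) (hy : tr.cb.Hyp) (hq : Rl tr.cb.fb.q ⊥) {a0 c : ℝ} (ha0 : a0 < 1)
    (hc : 0 < c) (hu : UnS tr.cb.fb.z (tr.cb.fb.iT ⊔ tr.cb.fb.iY) a0 c) (hG : HasGP tr.cb) {δ ε : ℝ} (hδ : 0 < δ)
    (hε : 0 < ε) : ∀ᶠ n in UF, LfF (T.F n) (2 * k * (d + 1) + k) (fun i => TR.ev (tr.q i) n) (TR.ev tr.z n)
      (Setoid.ker (tr.pv.cellv 1 n)) (Setoid.ker (tr.lv.cellv 1 n)) (2 ^ (δ * (T.F n).n)) (T.dl (1 - δ) n) ε :=
  finite_leafS tr (slo_all tr.cb hy hq ha0 hc hu) hy hq ha0 hc hu hG hδ hε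

end

end Pool.Agent.Helper99.CC
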