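import Pool.Agent.Helper99.CC.Fin
import Pool.Agent.Helper61.EC.GK

/-! Exact entropy calculus: straight lines as curved lines of degree one; the finite leaf statement for straight lines
over a flat base when one bush has independent directions. -/

set_option autoImplicit false

namespace Pool.Agent.Helper99.CC

open Filter Pool.Agent.Helper69.RK
open Pool.Agent.Helper31.EC Pool.Agent.Helper31.EC.Sp QS
open Pool.Agent.Helper38.NS Pool.Agent.Helper38.NS.FB Pool.Agent.Helper99.EC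
open Pool.Agent.Helper50.CV (CB)

noncomputable section

variable {T : Sp} {d : ℕ}

theorem F_one (s : CB T d 1) : s.fb.F = s.c 1 := by
  show ∑ j : Fin 1, s.c j.succ * s.t ^ (j : ℕ) = s.c 1
  rw [Fin.sum_univ_one]
  show s.c 1 * s.t ^ 0 = s.c 1
  rw [pow_zero, mul_one]

/-- straight lines: slopes are polynomials (50b, section 4) -/
theorem slo_one (s : CB T d 1) (hy : s.Hyp) (hq : Rl s.fb.q ⊥) {c : ℝ} (hc : 0 < c)
    (hu : UnS s.fb.z (s.fb.iT ⊔ s.fb.iY) 0 c) : SLO s (d + 1) := by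
  intro W p hst hdet
  have hs : s.fb.Hyp := ⟨hy.ht, by rw [F_one]; exact hy.hF 0, hy.h1⟩
  let C : CQ T s.fb.fQ d :=
    { W := W
      p := p
      com := hst.com
      ind := fun A => hst.ind 0 A }
  obtain ⟨W', w, hw⟩ := slopes (s := s.fb) Pool.Agent.Helper61.EC.wec hs hq hc (by rw [sup_comm]; exact hu) C hdet W
    (Pj.id W)
  obtain ⟨P, h1, h2, h3⟩ := hw 0
  have e0 : ∀ x : W.L, (w.comp (Pj.id W)).map x = w.map x := by
    intro x
    rw [Pj.comp_map, Pj.id_map]
  have e1 : ∀ x : QS W, (w.comp (Pj.id W)).qs x = w.qs x := by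
    intro x
    rw [Pj.comp_qs, Pj.id_qs]
  refine ⟨W', w, fun j => ⟨P, ?_, h2, ?_⟩⟩
  · rw [e0] at h1
    have h4 : w.map (vd (dirs C) 1) = Finset.univ.sup fun i => (w.comp (p i)).map s.fb.iX := by
      rw [vd_dirs, w.map_finsup]
      apply Finset.sup_congr rfl
      intro i _
      rw [Pj.comp_map]
    rw [h4] at h1
    exact h1
  · rw [e1] at h3
    simp only [e1] at h3
    have hj : j = 0 := Subsingleton.elim _ _
    subst hj
    have h5 : (w.comp (p 0)).qs (s.c (Fin.succ 0)) = w.qs (Fs C 0) := by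
      rw [Pj.comp_qs]
      show w.qs ((p 0).qs (s.c 1)) = w.qs ((p 0).qs s.fb.F)
      rw [F_one]
    rw [h5, h3]
    congr 1
    congr 1
    funext a
    rw [Pj.comp_qs]
    rfl

/-- THE FINITE LEAF STATEMENT for straight lines over a flat real base, without tool hypotheses -/
theorem finite_leaf_one (tr : FTC T d 1) (hy : tr.cb.Hyp) (hq : Rl tr.cb.fb.q ⊥) {c : ℝ} (hc : 0 < c)
    (hu : UnS tr.cb.fb.z (tr.cb.fb.iT ⊔ tr.cb.fb.iY) 0 c) (hG : HasGP tr.cb) {δ ε : ℝ} (hδ : 0 < δ)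
    (hε : 0 < ε) : ∀ᶠ n in UF, LfF (T.F n) (d + 1 + 1) (fun i => TR.ev (tr.q i) n) (TR.ev tr.z n)
      (Setoid.ker (tr.pv.cellv 1 n)) (Setoid.ker (tr.lv.cellv 1 n)) (2 ^ (δ * (T.F n).n)) (T.dl (1 - δ) n) ε :=
  finite_leafS tr (slo_one tr.cb hy hq hc hu) hy hq zero_lt_one hc hu hG hδ hε

end

end Pool.Agent.Helper99.CC
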