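import Pool.Agent.Helper99.EC.Leaf
import Pool.Agent.Helper50.CV.Cb

/-! Exact entropy calculus, curved leaves: lines over a flat base whose top coordinate is a polynomial of the height
along the lines; potentials of stars; two potentials of stars with the same point agree, free coefficients. -/

set_option autoImplicit false

namespace Pool.Agent.Helper99.CC

open Pool.Agent.Helper31.EC QS
open Pool.Agent.Helper38.NS Pool.Agent.Helper99.EC

noncomputable section

open Pool.Agent.Helper50.CV (CB)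

section fb

variable {S : Sp} {d : ℕ}

theorem _root_.Pool.Agent.Helper38.NS.FB.iX_le (s : FB S d) : s.iX ≤ s.iL := le_sup_right

/-- the top coordinate -/
theorem z_exp {k : ℕ} (s : CB S d k) : s.fb.z = s.c 0 + ∑ j : Fin k, s.t ^ ((j : ℕ) + 1) * s.c j.succ := by
  rw [s.z_eq]
  unfold pe
  rw [Fin.sum_univ_succ]
  simp only [Fin.val_zero, pow_zero, mul_one, Fin.val_succ]
  congr 1
  exact Finset.sum_congr rfl fun j _ => mul_comm _ _

theorem cq_eq {k : ℕ} (s : CB S d k) (i : Fin (d + 1)) : s.fb.q i = s.fb.av i + s.t * s.fb.v i := s.fb.q_eq i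

theorem cq_zero {k : ℕ} (s : CB S d k) : s.fb.q 0 = s.t := rfl

end fb

/-! ### stars in general position -/

variable {T : Sp} {d k : ℕ}

/-- the directions of a family of lines -/
def dirM (s : CB T d k) {ι : Type} {W : Sp} (p : ι → Pj W T) (e : Fin (d + 1) → ι) :
    Matrix (Fin (d + 1)) (Fin (d + 1)) (QS W) := Matrix.of fun i a => (p (e i)).qs (s.fb.v a)

theorem dirM_comp (s : CB T d k) {ι : Type} {W R : Sp} (p : ι → Pj W T) (e : Fin (d + 1) → ι) (r : Pj R W) :
    dirM s (fun i => r.comp (p i)) e = (dirM s p e).map r.qs := by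
  ext i a
  show (r.comp (p (e i))).qs (s.fb.v a) = r.qs ((p (e i)).qs (s.fb.v a))
  rw [Pj.comp_qs]

theorem dirM_comp_unit {s : CB T d k} {ι : Type} {W R : Sp} {p : ι → Pj W T} {e : Fin (d + 1) → ι} (r : Pj R W)
    (h : IsUnit (dirM s p e).det) : IsUnit (dirM s (fun i => r.comp (p i)) e).det := by
  rw [dirM_comp]
  have h2 := RingHom.map_det r.qs (dirM s p e)
  rw [RingHom.mapMatrix_apply] at h2
  rw [← h2]
  exact h.map r.qs

/-- every line of the family is in a spanning subfamily -/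
structure GPs (s : CB T d k) {ι : Type} {W : Sp} (p : ι → Pj W T) : Prop where
  ne : Nonempty ι
  cov : ∀ i, ∃ e : Fin (d + 1) → ι, e 0 = i ∧ IsUnit (dirM s p e).det

theorem GPs.pull {s : CB T d k} {ι : Type} {W : Sp} {p : ι → Pj W T} (h : GPs s p) {R : Sp} (r : Pj R W) :
    GPs s (fun i => r.comp (p i)) :=
  ⟨h.ne, fun i => by
    obtain ⟨e, h1, h2⟩ := h.cov i
    exact ⟨e, h1, dirM_comp_unit r h2⟩⟩

theorem GPs.double {s : CB T d k} {ι : Type} {W : Sp} {p : ι → Pj W T} (h : GPs s p) {R : Sp} (r1 r2 : Pj R W) :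
    GPs s (Sum.elim (fun i => r1.comp (p i)) (fun i => r2.comp (p i)) : ι ⊕ ι → Pj R T) := by
  obtain ⟨i0⟩ := h.ne
  refine ⟨⟨Sum.inl i0⟩, ?_⟩
  rintro (i | i)
  · obtain ⟨e, h1, h2⟩ := h.cov i
    exact ⟨fun j => Sum.inl (e j), congrArg Sum.inl h1, dirM_comp_unit r1 h2⟩
  · obtain ⟨e, h1, h2⟩ := h.cov i
    exact ⟨fun j => Sum.inr (e j), congrArg Sum.inr h1, dirM_comp_unit r2 h2⟩

/-- potential of a star: a polynomial `f` of degree at most `K` with coefficients known to the directions whose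
increments in the direction of every line are the increments of the top coordinate along the line -/
structure CPot (s : CB T d k) (K : ℕ) {ι : Type} [Fintype ι] {W : Sp} (p : ι → Pj W T) where
  f : MvPolynomial (Fin (d + 1)) (QS W)
  P : ι → Fin k → MvPolynomial (Fin (d + 1)) (QS W)
  hf : f ∈ PK (Finset.univ.sup fun i => (p i).map s.fb.iX)
  hP : ∀ i j, P i j ∈ PK (Finset.univ.sup fun i => (p i).map s.fb.iX)
  deg : f.totalDegree ≤ K
  f0 : f.coeff 0 = 0
  ev : ∀ i j, MvPolynomial.eval (fun a => (p i).qs (s.fb.q a)) (P i j) = (p i).qs (s.c j.succ)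
  dv : ∀ (i : ι) (R : Sp) (r : Pj R W) (y : Fin (d + 1) → QS R) (c : QS R),
    MvPolynomial.eval (fun a => y a + c * r.qs ((p i).qs (s.fb.v a))) (MvPolynomial.map r.qs f) -
      MvPolynomial.eval y (MvPolynomial.map r.qs f) =
      ∑ j : Fin k, ((y 0 + c) ^ ((j : ℕ) + 1) - y 0 ^ ((j : ℕ) + 1)) *
        MvPolynomial.eval y (MvPolynomial.map r.qs (P i j))

/-- every star in general position has, in an extension, a potential -/
def CPOT (s : CB T d k) (K : ℕ) : Prop :=
  ∀ (ι : Type) (_ : Fintype ι) (W : Sp) (p : ι → Pj W T), IsStar s.fb.fQ p → GPs s p →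
    ∃ (W' : Sp) (w : Pj W' W), Nonempty (CPot s K (fun i => w.comp (p i)))

namespace CPot

variable {s : CB T d k} {K : ℕ} {ι : Type} [Fintype ι] {W : Sp} {p : ι → Pj W T}

/-- pullback -/
def pull (Φ : CPot s K p) {R : Sp} (r : Pj R W) : CPot s K (fun i => r.comp (p i)) where
  f := MvPolynomial.map r.qs Φ.f
  P i j := MvPolynomial.map r.qs (Φ.P i j)
  hf := by
    have h1 := map_PK r Φ.hf
    rw [r.map_finsup] at h1
    simp only [Pj.comp_map]
    exact h1
  hP i j := by
    have h1 := map_PK r (Φ.hP i j)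
    rw [r.map_finsup] at h1
    simp only [Pj.comp_map]
    exact h1
  deg := (totalDegree_map_le _ _).trans Φ.deg
  f0 := by rw [MvPolynomial.coeff_map, Φ.f0, map_zero]
  ev i j := by
    have h1 := congrArg r.qs (Φ.ev i j)
    rw [qs_eval] at h1
    simp only [Pj.comp_qs]
    exact h1
  dv i R' r' y c := by
    have h1 := Φ.dv i R' (r'.comp r) y c
    simp only [Pj.comp_qs] at h1 ⊢
    have h2 : (r'.qs).comp r.qs = (r'.comp r).qs := by
      ext x
      rw [RingHom.comp_apply, Pj.comp_qs]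
    simp only [MvPolynomial.map_map, h2]
    exact h1

/-- the derivative on the space itself -/
theorem dv' (Φ : CPot s K p) (i : ι) (y : Fin (d + 1) → QS W) (c : QS W) :
    MvPolynomial.eval (fun a => y a + c * (p i).qs (s.fb.v a)) Φ.f - MvPolynomial.eval y Φ.f =
      ∑ j : Fin k, ((y 0 + c) ^ ((j : ℕ) + 1) - y 0 ^ ((j : ℕ) + 1)) * MvPolynomial.eval y (Φ.P i j) := by
  have h1 := Φ.dv i W (Pj.id W) y c
  simp only [Pj.id_qs] at h1
  have h2 : (Pj.id W).qs = RingHom.id (QS W) := by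
    ext x
    rw [Pj.id_qs, RingHom.id_apply]
  simp only [h2, MvPolynomial.map_id] at h1
  exact h1

/-- the point is real over the directions -/
theorem rl_point (hs : IsStar s.fb.fQ p) (hX : I s.fb.iX s.fb.iP ⊥ = 0) (hq : Rl s.fb.q ⊥) (i0 : ι) :
    Rl (fun a => (p i0).qs (s.fb.q a)) (Finset.univ.sup fun i => (p i).map s.fb.iX) := by
  have h1 := hs.I_free i0 (fun _ => s.fb.iX) (fun _ => by rw [FB.vd_fP]; exact hX)
  rw [FB.vd_fP] at h1
  have h2 := hq.pull (p i0)
  rw [Pj.map_bot] at h2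
  unfold Rl at h2 ⊢
  have h3 : I (Finset.univ.sup fun i => (p i).map s.fb.iX) (vd (fun a => (p i0).qs (s.fb.q a)) 1) ⊥ = 0 := by
    refine ind_of h1 le_rfl bot_le le_sup_left ?_
    rw [(p i0).qs_vd]
    exact ((p i0).map_mono s.fb.vd_q_le).trans le_sup_left
  rw [I_zero_iff_h', sup_bot_eq] at h3
  rw [h3]
  exact h2

/-- the potential of a star and the potential of a part of the star agree -/
theorem eq_of_sub (hX : I s.fb.iX s.fb.iP ⊥ = 0) (hq : Rl s.fb.q ⊥) {κ : Type} [Fintype κ] (p' : κ → Pj W T)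
    (hs' : IsStar s.fb.fQ p') (e : ι → κ) (he : ∀ i, p' (e i) = p i) (hsp : GPs s p) (Φ : CPot s K p) (Φ' : CPot s K p') :
    Φ.f = Φ'.f := by
  obtain ⟨i0⟩ := hsp.ne
  obtain ⟨b, -, hb⟩ := hsp.cov i0
  set U := Finset.univ.sup fun i => (p' i).map s.fb.iX with hU
  have hle : (Finset.univ.sup fun i => (p i).map s.fb.iX) ≤ U := by
    apply Finset.sup_le
    intro i _
    rw [← he i]
    exact Finset.le_sup (f := fun i => (p' i).map s.fb.iX) (Finset.mem_univ (e i))
  have hr := rl_point hs' hX hq (e (b 0))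
  have hPP : ∀ i j, Φ.P i j = Φ'.P (e i) j := by
    intro i j
    apply mv_unique U (fun a => (p' (e (b 0))).qs (s.fb.q a)) _ _ hr (PK_mono hle (Φ.hP i j)) (Φ'.hP (e i) j)
    have hc : ∀ j, (fun a => (p' (e (b 0))).qs (s.fb.q a)) = fun a => (p' (e j)).qs (s.fb.q a) := by
      intro j
      funext a
      exact hs'.com (e (b 0)) (e j) (Sum.inl a)
    rw [hc i, Φ'.ev (e i) j, he i]
    exact Φ.ev i j
  have hinv : ∀ (i : Fin (d + 1)) (y : Fin (d + 1) → QS W) (c : QS W),
      MvPolynomial.eval (fun a => y a + c * (p (b i)).qs (s.fb.v a)) (Φ.f - Φ'.f) = MvPolynomial.eval y (Φ.f - Φ'.f) := by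
    intro i y c
    have h1 := Φ.dv' (b i) y c
    have h2 := Φ'.dv' (e (b i)) y c
    rw [he] at h2
    simp only [← hPP] at h2
    rw [map_sub, map_sub]
    linear_combination h1 - h2
  have h0 := eval_inv (Φ.f - Φ'.f) (fun i a => (p (b i)).qs (s.fb.v a)) hb hinv
    (fun a => (p' (e (b 0))).qs (s.fb.q a))
  rw [MvPolynomial.coeff_sub, Φ.f0, Φ'.f0, sub_zero] at h0
  have h1 := mv_eq_zero' U _ (Φ.f - Φ'.f) hr ((PK U).sub_mem (PK_mono hle Φ.hf) Φ'.hf) h0
  exact sub_eq_zero.mp h1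

/-- (A): potentials of two stars with the same point agree -/
theorem agree (hP0 : CPOT s K) (hX : I s.fb.iX s.fb.iP ⊥ = 0) (hq : Rl s.fb.q ⊥) (hs : IsStar s.fb.fQ p) (hsp : GPs s p)
    (Φ : CPot s K p) {R : Sp} (r1 r2 : Pj R W) (hc : ∀ i a, r1.qs ((p i).qs (s.fb.fQ a)) = r2.qs ((p i).qs (s.fb.fQ a)))
    (hI : ∀ i x y, I (r1.map x) (r2.map y) (r1.map ((p i).map (vd s.fb.fQ 1))) = 0) :
    MvPolynomial.map r1.qs Φ.f = MvPolynomial.map r2.qs Φ.f := by
  have hd := hs.double r1 r2 hc hI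
  have hsd := hsp.double r1 r2
  obtain ⟨W', w, ⟨Ψ⟩⟩ := hP0 (ι ⊕ ι) inferInstance R _ hd hsd
  have e1 := CPot.eq_of_sub hX hq (fun j => w.comp ((Sum.elim (fun i => r1.comp (p i)) (fun i => r2.comp (p i)) :
    ι ⊕ ι → Pj R T) j)) (hd.pull w) (fun i => Sum.inl i) (fun i => rfl) ((hsp.pull r1).pull w) ((Φ.pull r1).pull w) Ψ
  have e2 := CPot.eq_of_sub hX hq (fun j => w.comp ((Sum.elim (fun i => r1.comp (p i)) (fun i => r2.comp (p i)) :
    ι ⊕ ι → Pj R T) j)) (hd.pull w) (fun i => Sum.inr i) (fun i => rfl) ((hsp.pull r2).pull w) ((Φ.pull r2).pull w) Ψ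
  have e3 : MvPolynomial.map w.qs (MvPolynomial.map r1.qs Φ.f) = MvPolynomial.map w.qs (MvPolynomial.map r2.qs Φ.f) :=
    e1.trans e2.symm
  exact MvPolynomial.map_injective _ w.qs_injective e3

/-- (A): the coefficients of the potential are free -/
theorem free (hP0 : CPOT s K) (hX : I s.fb.iX s.fb.iP ⊥ = 0) (hq : Rl s.fb.q ⊥) (hs : IsStar s.fb.fQ p) (hsp : GPs s p)
    (Φ : CPot s K p) : Φ.f ∈ PK (⊥ : W.L) := by
  classical
  obtain ⟨i0⟩ := hsp.ne
  obtain ⟨R, r1, r2, hc, hI, hv⟩ := exists_copyS (fun a => (p i0).qs (s.fb.fQ a))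
  have hcc : ∀ i a, r1.qs ((p i).qs (s.fb.fQ a)) = r2.qs ((p i).qs (s.fb.fQ a)) := by
    intro i a
    rw [hs.com i i0 a]
    exact hc a
  have hII : ∀ i x y, I (r1.map x) (r2.map y) (r1.map ((p i).map (vd s.fb.fQ 1))) = 0 := by
    intro i x y
    rw [hs.com_vd i i0, ← (p i0).qs_vd]
    exact hI x y
  have h1 := Φ.agree hP0 hX hq hs hsp r1 r2 hcc hII
  have hd := hs.double r1 r2 hcc hII
  intro m
  have h2 : r1.qs (Φ.f.coeff m) = r2.qs (Φ.f.coeff m) := by
    have := congrArg (MvPolynomial.coeff m) h1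
    rwa [MvPolynomial.coeff_map, MvPolynomial.coeff_map] at this
  have h3 : r1.map (dg (Φ.f.coeff m) 1) = r2.map (dg (Φ.f.coeff m) 1) := by
    rw [← r1.qs_dg, ← r2.qs_dg, h2]
  set U := Finset.univ.sup fun i => (p i).map s.fb.iX with hU
  have hfm : dg (Φ.f.coeff m) 1 ≤ U := Φ.hf m
  have hIU : I (r1.map U) (r2.map U) ⊥ = 0 := by
    have : Nonempty (ι ⊕ ι) := ⟨Sum.inl i0⟩
    have h4 := hd.I_free_two (s := Finset.univ.image Sum.inl) (t := Finset.univ.image Sum.inr) (by
      rw [Finset.disjoint_left]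
      intro j hj hj'
      rw [Finset.mem_image] at hj hj'
      obtain ⟨a, _, rfl⟩ := hj
      obtain ⟨c, _, hc⟩ := hj'
      exact Sum.inr_ne_inl hc) (fun _ => s.fb.iX) (fun _ => by rw [FB.vd_fP]; exact hX)
    rw [Finset.sup_image, Finset.sup_image] at h4
    have e1 : (Finset.univ.sup ((fun i => (Sum.elim (fun i => r1.comp (p i)) (fun i => r2.comp (p i)) i :
        Pj R T).map s.fb.iX) ∘ Sum.inl)) = r1.map U := by
      rw [hU, r1.map_finsup]
      apply Finset.sup_congr rfl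
      intro i _
      exact Pj.comp_map _ _ _
    have e2 : (Finset.univ.sup ((fun i => (Sum.elim (fun i => r1.comp (p i)) (fun i => r2.comp (p i)) i :
        Pj R T).map s.fb.iX) ∘ Sum.inr)) = r2.map U := by
      rw [hU, r2.map_finsup]
      apply Finset.sup_congr rfl
      intro i _
      exact Pj.comp_map _ _ _
    rw [e1, e2] at h4
    exact h4
  have h5 : r1.map (dg (Φ.f.coeff m) 1) ≤ ⊥ := by
    apply le_of_markov (A := r1.map U) (B := r2.map U) _ _ hIU
    · exact (r1.map_mono hfm).trans le_sup_left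
    · rw [h3]
      exact (r2.map_mono hfm).trans le_sup_left
  rw [← r1.map_bot] at h5
  exact r1.map_le.mp h5

end CPot

end

end Pool.Agent.Helper99.CC
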