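import Pool.Agent.Helper99.CC.Leaf
import Pool.Agent.Helper99.EC.Ext
import Pool.Agent.Helper19.CL.PotH

/-! Exact entropy calculus, curved leaves: potentials of stars in general position exist (from the slopes theorem and
the loop theorem). -/

set_option autoImplicit false

namespace Pool.Agent.Helper99.EC

open Pool.Agent.Helper31.EC QS

/-- sub-families of stars -/
theorem IsStar.sub {T W : Sp} {κ ι ι' : Type} [Fintype κ] [Fintype ι] [Fintype ι'] {f : κ → QS T} {p : ι → Pj W T}
    (hs : IsStar f p) (e : ι' → ι) (he : Function.Injective e) : IsStar f (fun i => p (e i)) := by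
  classical
  refine ⟨fun i j a => hs.com (e i) (e j) a, fun i0 A => ?_⟩
  obtain ⟨A', hA1, hA2⟩ : ∃ A' : ι → T.L, (∀ i, A' (e i) = A i) ∧ ∀ j, (¬ ∃ i, e i = j) → A' j = ⊥ :=
    ⟨fun j => if h : ∃ i, e i = j then A h.choose else ⊥, fun i => by
      have h : ∃ i', e i' = e i := ⟨i, rfl⟩
      beta_reduce
      rw [dif_pos h, he h.choose_spec], fun j hj => by
      beta_reduce
      rw [dif_neg hj]⟩
  have h1 := hs.ind (e i0) A'
  have h2 : (Finset.univ.sup fun j => (p j).map (A' j)) = Finset.univ.sup fun i => (p (e i)).map (A i) := by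
    apply le_antisymm
    · apply Finset.sup_le
      intro j _
      by_cases hj : ∃ i, e i = j
      · obtain ⟨i, rfl⟩ := hj
        rw [hA1]
        exact Finset.le_sup (f := fun i => (p (e i)).map (A i)) (Finset.mem_univ i)
      · rw [hA2 j hj, Pj.map_bot]
        exact bot_le
    · apply Finset.sup_le
      intro i _
      rw [← hA1]
      exact Finset.le_sup (f := fun j => (p j).map (A' j)) (Finset.mem_univ (e i))
  have h3 : ∑ j, h (A' j) (vd f 1) = ∑ i, h (A i) (vd f 1) := by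
    rw [← Finset.sum_subset (Finset.subset_univ (Finset.univ.image e)), Finset.sum_image (fun a _ b _ h => he h)]
    · apply Finset.sum_congr rfl
      intro i _
      rw [hA1]
    · intro j _ hj
      rw [hA2 j, h_zero bot_le]
      rintro ⟨i, rfl⟩
      exact hj (Finset.mem_image_of_mem e (Finset.mem_univ i))
  rw [h2, h3] at h1
  exact h1

end Pool.Agent.Helper99.EC

namespace Pool.Agent.Helper99.CC

open Pool.Agent.Helper31.EC QS
open Pool.Agent.Helper38.NS Pool.Agent.Helper99.EC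
open Pool.Agent.Helper50.CV (CB)

noncomputable section

/-- the primitive `∑ X_0^(j+1) P_j` -/
def Hp {A : Type*} [CommRing A] {d k : ℕ} (P : Fin k → MvPolynomial (Fin (d + 1)) A) :
    MvPolynomial (Fin (d + 1)) A := ∑ j : Fin k, MvPolynomial.X 0 ^ ((j : ℕ) + 1) * P j

theorem eval_Hp {A : Type*} [CommRing A] {d k : ℕ} (P : Fin k → MvPolynomial (Fin (d + 1)) A) (x : Fin (d + 1) → A) :
    MvPolynomial.eval x (Hp P) = ∑ j : Fin k, x 0 ^ ((j : ℕ) + 1) * MvPolynomial.eval x (P j) := by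
  unfold Hp
  rw [map_sum]
  apply Finset.sum_congr rfl
  intro j _
  rw [map_mul, map_pow, MvPolynomial.eval_X]

theorem map_Hp {A B : Type*} [CommRing A] [CommRing B] (φ : A →+* B) {d k : ℕ}
    (P : Fin k → MvPolynomial (Fin (d + 1)) A) : MvPolynomial.map φ (Hp P) = Hp (fun j => MvPolynomial.map φ (P j)) := by
  unfold Hp
  rw [map_sum]
  apply Finset.sum_congr rfl
  intro j _
  rw [map_mul, map_pow, MvPolynomial.map_X]

theorem Hp_mem {W : Sp} {d k : ℕ} {A : W.L} (P : Fin k → MvPolynomial (Fin (d + 1)) (QS W)) (h : ∀ j, P j ∈ PK A) :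
    Hp P ∈ PK A :=
  (PK A).sum_mem fun j _ => (PK A).mul_mem ((PK A).pow_mem (X_mem A 0) _) (h j)

theorem Hp_deg {A : Type*} [CommRing A] {d k D : ℕ} (P : Fin k → MvPolynomial (Fin (d + 1)) A)
    (h : ∀ j, (P j).totalDegree ≤ D) : (Hp P).totalDegree ≤ D + k := by
  unfold Hp
  apply MvPolynomial.totalDegree_finsetSum_le
  intro j _
  refine (MvPolynomial.totalDegree_mul _ _).trans ?_
  have h1 := MvPolynomial.totalDegree_pow (MvPolynomial.X 0 : MvPolynomial (Fin (d + 1)) A) ((j : ℕ) + 1)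
  have h2 : (MvPolynomial.X 0 : MvPolynomial (Fin (d + 1)) A).totalDegree ≤ 1 :=
    Pool.Agent.Helper19.SP.totalDegree_X_le 0
  have h3 := h j
  have h4 : (j : ℕ) + 1 ≤ k := j.isLt
  have h5 : ((j : ℕ) + 1) * (MvPolynomial.X 0 : MvPolynomial (Fin (d + 1)) A).totalDegree ≤ ((j : ℕ) + 1) * 1 :=
    Nat.mul_le_mul_left _ h2
  omega

/-- polynomials of the base point which are known to the line are constant along the direction of the line -/
theorem inv_line {W : Sp} {d : ℕ} (A : W.L) (q : Fin (d + 1) → QS W) (hq : Rl q A) (v : Fin (d + 1) → QS W)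
    (hv0 : v 0 = 1) (hv : ∀ a, dg (v a) 1 ≤ A) (P : MvPolynomial (Fin (d + 1)) (QS W)) (hP : P ∈ PK A) (B : W.L)
    (hAB : A ≤ B) (hav : ∀ a, dg (q a - q 0 * v a) 1 ≤ B) (hc : dg (MvPolynomial.eval q P) 1 ≤ B)
    (ht : h (dg (q 0) 1) B = 1) : Pot P v 0 := by
  have hbe : ∀ (n : ℕ) (x : Fin n → QS W) (g : Fin (d + 1) → MvPolynomial (Fin n) (QS W))
      (f : MvPolynomial (Fin (d + 1)) (QS W)), MvPolynomial.eval x (MvPolynomial.bind₁ g f) =
      MvPolynomial.eval (fun a => MvPolynomial.eval x (g a)) f := by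
    intro n x g f
    exact MvPolynomial.eval₂Hom_bind₁ (RingHom.id (QS W)) x g f
  -- the restriction to the line is constant
  have h1 : MvPolynomial.eval (fun a => q a - q 0 * v a) P = MvPolynomial.eval q P := by
    set p1 : MvPolynomial (Fin 1) (QS W) := MvPolynomial.bind₁
      (fun a => MvPolynomial.C (q a - q 0 * v a) + MvPolynomial.X 0 * MvPolynomial.C (v a)) P -
        MvPolynomial.C (MvPolynomial.eval q P) with hp1
    have hev : ∀ u : QS W, MvPolynomial.eval (fun _ => u) p1 =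
        MvPolynomial.eval (fun a => q a - q 0 * v a + u * v a) P - MvPolynomial.eval q P := by
      intro u
      rw [hp1, map_sub, hbe, MvPolynomial.eval_C]
      congr 3
      funext a
      rw [map_add, map_mul, MvPolynomial.eval_C, MvPolynomial.eval_C, MvPolynomial.eval_X]
    have hm : p1 ∈ PK B := by
      apply (PK B).sub_mem
      · apply bind_mem _ _ (PK_mono hAB hP)
        intro a
        exact (PK B).add_mem (C_mem (hav a)) ((PK B).mul_mem (X_mem B 0) (C_mem ((hv a).trans hAB)))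
      · exact C_mem hc
    have hr : Rl (fun _ : Fin 1 => q 0) B := by
      apply Rl.of_ge
      have h2 := h_mono (B := B) (dg_le_vd (fun _ : Fin 1 => q 0) 1 0)
      rw [ht] at h2
      rw [Fintype.card_fin, Nat.cast_one]
      exact h2
    have h0 : p1 = 0 := by
      apply mv_eq_zero' B _ p1 hr hm
      rw [hev]
      have e : (fun a => q a - q 0 * v a + q 0 * v a) = q := by
        funext a
        ring
      rw [e, sub_self]
    have h2 := hev 0
    rw [h0, map_zero] at h2
    have e : (fun a => q a - q 0 * v a + 0 * v a) = fun a => q a - q 0 * v a := by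
      funext a
      ring
    rw [e] at h2
    exact (sub_eq_zero.mp h2.symm)
  -- the polynomial is invariant
  obtain ⟨Q, hQ⟩ : ∃ Q, Q = MvPolynomial.bind₁ (fun a : Fin (d + 1) => (MvPolynomial.X a -
    MvPolynomial.X 0 * MvPolynomial.C (v a) : MvPolynomial (Fin (d + 1)) (QS W))) P := ⟨_, rfl⟩
  have hQe : ∀ x, MvPolynomial.eval x Q = MvPolynomial.eval (fun a => x a - x 0 * v a) P := by
    intro x
    rw [hQ, hbe]
    congr 2
    funext a
    rw [map_sub, map_mul, MvPolynomial.eval_C, MvPolynomial.eval_X, MvPolynomial.eval_X]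
  have hQm : Q ∈ PK A := by
    rw [hQ]
    apply bind_mem _ _ hP
    intro a
    exact (PK A).sub_mem (X_mem A a) ((PK A).mul_mem (X_mem A 0) (C_mem (hv a)))
  have hQP : Q = P := by
    apply mv_unique A q Q P hq hQm hP
    rw [hQe, h1]
  intro x s
  rw [map_zero, mul_zero, sub_eq_zero, ← hQP, hQe, hQe]
  congr 2
  funext a
  rw [hv0]
  ring

variable {T : Sp} {d k : ℕ}

/-- THE SLOPES THEOREM (statement): for stars of `d + 1` lines with independent directions the coefficients of the top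
coordinate of the first line are polynomials of the base point with coefficients known to the directions -/
def SLO (s : CB T d k) (D : ℕ) : Prop :=
  ∀ (W : Sp) (p : Fin (d + 1) → Pj W T), IsStar s.fb.fQ p → IsUnit (dirM s p id).det →
    ∃ (W' : Sp) (w : Pj W' W), ∀ j : Fin k, ∃ P : MvPolynomial (Fin (d + 1)) (QS W'),
      P ∈ PK (Finset.univ.sup fun i => (w.comp (p i)).map s.fb.iX) ∧ P.totalDegree ≤ D ∧
      MvPolynomial.eval (fun a => (w.comp (p 0)).qs (s.fb.q a)) P = (w.comp (p 0)).qs (s.c j.succ)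

/-- potentials exist -/
theorem cpot (s : CB T d k) {D : ℕ} (hS : SLO s D) (hy : s.Hyp) (hq : Rl s.fb.q ⊥) {a0 c : ℝ} (ha0 : a0 < 1)
    (hc : 0 < c) (hu : UnS s.fb.z (s.fb.iT ⊔ s.fb.iY) a0 c) : CPOT s (D + k) := by
  classical
  intro ι _ W p hst hsp
  -- slopes of all lines
  obtain ⟨W1, r, hQ⟩ := ext_all (S := W) (Finset.univ : Finset ι)
    (fun i W' r => ∀ j : Fin k, ∃ P : MvPolynomial (Fin (d + 1)) (QS W'),
      P ∈ PK (Finset.univ.sup fun i => (r.comp (p i)).map s.fb.iX) ∧ P.totalDegree ≤ D ∧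
      MvPolynomial.eval (fun a => (r.comp (p i)).qs (s.fb.q a)) P = (r.comp (p i)).qs (s.c j.succ))
    (by
      intro i W' r W'' r' h j
      obtain ⟨P, h1, h2, h3⟩ := h j
      refine ⟨MvPolynomial.map r'.qs P, ?_, (totalDegree_map_le _ _).trans h2, ?_⟩
      · have h4 := map_PK r' h1
        rw [r'.map_finsup] at h4
        simp only [Pj.comp_map] at h4 ⊢
        exact h4
      · have h4 := congrArg r'.qs h3
        rw [qs_eval] at h4
        simp only [Pj.comp_qs] at h4 ⊢
        exact h4)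
    (by
      intro i W' r
      obtain ⟨e, he0, heu⟩ := hsp.cov i
      have hinj : Function.Injective e := by
        intro a b hab
        by_contra hne
        have h1 : (dirM s p e).det = 0 := by
          apply Matrix.det_zero_of_row_eq hne
          funext a'
          show (p (e a)).qs (s.fb.v a') = (p (e b)).qs (s.fb.v a')
          rw [hab]
        rw [h1] at heu
        exact not_isUnit_zero heu
      have hst' : IsStar s.fb.fQ (fun i => r.comp (p (e i))) := (hst.sub e hinj).pull r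
      obtain ⟨W'', w, hw⟩ := hS W' (fun i => r.comp (p (e i))) hst' (dirM_comp_unit r heu)
      refine ⟨W'', w, fun j => ?_⟩
      obtain ⟨P, h1, h2, h3⟩ := hw j
      refine ⟨P, PK_mono ?_ h1, h2, ?_⟩
      · apply Finset.sup_le
        intro a _
        simp only [Pj.comp_map]
        exact Finset.le_sup (f := fun i => w.map (r.map ((p i).map s.fb.iX))) (Finset.mem_univ (e a))
      · rw [he0] at h3
        simp only [Pj.comp_qs] at h3 ⊢
        exact h3)
  have hQ' := fun i => hQ i (Finset.mem_univ i)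
  choose P hPm hPd hPe using hQ'
  obtain ⟨p1, hp1⟩ : ∃ p1 : ι → Pj W1 T, p1 = fun i => r.comp (p i) := ⟨_, rfl⟩
  have hst1 : IsStar s.fb.fQ p1 := by rw [hp1]; exact hst.pull r
  have hsp1 : GPs s p1 := by rw [hp1]; exact hsp.pull r
  have hPm1 : ∀ i j, P i j ∈ PK (Finset.univ.sup fun i => (p1 i).map s.fb.iX) := by
    intro i j
    rw [hp1]
    exact hPm i j
  have hPe1 : ∀ i j, MvPolynomial.eval (fun a => (p1 i).qs (s.fb.q a)) (P i j) = (p1 i).qs (s.c j.succ) := by
    intro i j
    rw [hp1]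
    exact hPe i j
  obtain ⟨i0⟩ := hsp1.ne
  obtain ⟨e, he0, heu⟩ := hsp1.cov i0
  set U := Finset.univ.sup fun i => (p1 i).map s.fb.iX with hU
  obtain ⟨G, hG⟩ : ∃ G : ι × Fin (d + 1) → QS W1, G = fun a => (p1 a.1).qs (s.fb.v a.2) := ⟨_, rfl⟩
  have hGd : vd G 1 = U := by
    apply le_antisymm
    · rw [vd_le]
      intro a
      rw [hG]
      show dg ((p1 a.1).qs (s.fb.v a.2)) 1 ≤ _
      rw [(p1 a.1).qs_dg]
      refine ((p1 a.1).map_mono (s.fb.v_le a.2)).trans ?_
      exact Finset.le_sup (f := fun i => (p1 i).map s.fb.iX) (Finset.mem_univ a.1)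
    · apply Finset.sup_le
      intro i _
      rw [← s.fb.vd_v, ← (p1 i).qs_vd, vd_le]
      intro a
      have := dg_le_vd G 1 (i, a)
      rw [hG] at this ⊢
      exact this
  obtain ⟨q', hq'⟩ : ∃ q' : Fin (d + 1) → QS W1, q' = fun a => (p1 i0).qs (s.fb.q a) := ⟨_, rfl⟩
  have hqi : ∀ i a, (p1 i).qs (s.fb.q a) = q' a := by
    intro i a
    rw [hq']
    exact hst1.com i i0 (Sum.inl a)
  have hqif : ∀ i, (fun a => (p1 i).qs (s.fb.q a)) = q' := fun i => funext fun a => hqi i a
  obtain ⟨z', hz'⟩ : ∃ z', z' = (p1 i0).qs s.fb.z := ⟨_, rfl⟩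
  have hzi : ∀ i, (p1 i).qs s.fb.z = z' := by
    intro i
    rw [hz']
    exact hst1.com i i0 (Sum.inr ())
  have hPq : ∀ i j, MvPolynomial.eval q' (P i j) = (p1 i).qs (s.c j.succ) := by
    intro i j
    rw [← hPe1 i j, hqif]
  have hqR : Rl q' U := by
    rw [hq']
    exact CPot.rl_point hst1 hy.s1 hq i0
  have hv0 : ∀ i, (p1 i).qs (s.fb.v 0) = 1 := by
    intro i
    show (p1 i).qs 1 = 1
    exact map_one _
  have hvU : ∀ i a, dg ((p1 i).qs (s.fb.v a)) 1 ≤ U := by
    intro i a
    rw [← hGd]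
    have := dg_le_vd G 1 (i, a)
    rw [hG] at this ⊢
    exact this
  have hav : ∀ i a, q' a - q' 0 * (p1 i).qs (s.fb.v a) = (p1 i).qs (s.fb.av a) := by
    intro i a
    rw [← hqi i a, ← hqi i 0, cq_zero, cq_eq s a, map_add, map_mul]
    ring
  have hHz : ∀ i, z' - MvPolynomial.eval q' (Hp (P i)) = (p1 i).qs (s.c 0) := by
    intro i
    rw [eval_Hp, ← hzi i, z_exp s, map_add, map_sum]
    have : ∀ j : Fin k, q' 0 ^ ((j : ℕ) + 1) * MvPolynomial.eval q' (P i j) =
        (p1 i).qs (s.t ^ ((j : ℕ) + 1) * s.c j.succ) := by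
      intro j
      rw [hPq, map_mul, map_pow, ← hqi i 0, cq_zero]
    rw [Finset.sum_congr rfl fun j _ => this j]
    ring
  have hline : ∀ i, Helper31.EC.h (dg (q' 0) 1) ((p1 i).map (s.fb.iL ⊔ s.fb.iB) ⊔ U) = 1 := by
    intro i
    have h1 := ht_line hy hst1 i
    have h2 : dg (q' 0) 1 = (p1 i).map s.fb.iT := by
      rw [← hqi i 0, (p1 i).qs_dg]
      rfl
    rw [h2]
    exact h1
  have havk : ∀ i a, dg ((p1 i).qs (s.fb.av a)) 1 ≤ (p1 i).map (s.fb.iL ⊔ s.fb.iB) := by
    intro i a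
    rw [(p1 i).qs_dg]
    exact (p1 i).map_mono ((s.fb.av_le a).trans le_sup_left)
  have hck : ∀ i j, dg ((p1 i).qs (s.c j)) 1 ≤ (p1 i).map (s.fb.iL ⊔ s.fb.iB) := by
    intro i j
    rw [(p1 i).qs_dg]
    apply (p1 i).map_mono
    exact (dg_le_vd s.c 1 j).trans hy.vc
  have htime : ∀ i, Helper31.EC.h (dg (q' 0) 1) (vd (fun a => q' a - q' 0 * (p1 i).qs (s.fb.v a)) 1 ⊔
      dg (z' - MvPolynomial.eval q' (Hp (P i))) 1 ⊔ vd G 1) = 1 := by
    intro i
    apply le_antisymm (h_dg_le_one _ _)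
    refine (hline i).ge.trans (h_anti ?_)
    rw [hGd]
    apply sup_le_sup_right
    apply sup_le
    · rw [vd_le]
      intro a
      rw [hav]
      exact havk i a
    · rw [hHz]
      exact hck i 0
  have hun : UnS z' (vd q' 1 ⊔ vd G 1) a0 c := by
    have h1 := hu.pull (p1 i0)
    rw [← hz'] at h1
    refine h1.mono ?_
    refine le_trans (le_of_eq ?_) le_sup_left
    rw [← s.fb.vd_q, ← (p1 i0).qs_vd, hq']
  -- the loop theorem
  obtain ⟨M, hM⟩ : ∃ M, M = Fintype.card ι := ⟨_, rfl⟩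
  obtain ⟨σ⟩ : Nonempty (Fin M ≃ ι) := ⟨(Fintype.equivFinOfCardEq hM.symm).symm⟩
  obtain ⟨Lf, hLf⟩ : ∃ Lf : Fin (d + 1 + M) → ι, Lf = Fin.append e σ := ⟨_, rfl⟩
  have hN : d + 1 ≤ d + 1 + M := Nat.le_add_right _ _
  have hLe : ∀ i : Fin (d + 1), Lf (Fin.castLE hN i) = e i := by
    intro i
    rw [hLf]
    have : Fin.castLE hN i = Fin.castAdd M i := rfl
    rw [this, Fin.append_left]
  have hLs : ∀ i : ι, ∃ l, Lf l = i := by
    intro i
    refine ⟨Fin.natAdd (d + 1) (σ.symm i), ?_⟩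
    rw [hLf, Fin.append_right, Equiv.apply_symm_apply]
  have hdet : IsUnit (Matrix.det (Matrix.of fun i j : Fin (d + 1) =>
      (fun l a => (p1 (Lf l)).qs (s.fb.v a)) (Fin.castLE hN i) j)) := by
    have h1 : (Matrix.of fun i j : Fin (d + 1) =>
      (fun l a => (p1 (Lf l)).qs (s.fb.v a)) (Fin.castLE hN i) j) = dirM s p1 e := by
      ext i j
      show (p1 (Lf (Fin.castLE hN i))).qs (s.fb.v j) = (p1 (e i)).qs (s.fb.v j)
      rw [hLe]
    rw [h1]
    exact heu
  obtain ⟨f, hf, hf0, hpot⟩ := loopH G (q' 0) q' z' (fun l a => (p1 (Lf l)).qs (s.fb.v a)) (fun l => Hp (P (Lf l)))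
    hN a0 c ha0 hc (by rw [hGd]; exact hqR) (fun l a => by rw [hGd]; exact hvU _ a)
    (fun l => by rw [hGd]; exact Hp_mem _ (fun j => hPm1 _ j)) hdet (fun l => htime (Lf l)) hun
  have hpot' : ∀ i, PotH f (fun a => (p1 i).qs (s.fb.v a)) (Hp (P i)) := by
    intro i
    obtain ⟨l, hl⟩ := hLs i
    have := hpot l
    rw [hl] at this
    exact this
  rw [hGd] at hf
  obtain ⟨-, hdeg⟩ := potH_known (A := U) (B := U) le_rfl f hf hf0 (dirM s p1 e)
    (fun i j => hvU (e i) j) heu (fun i => Hp (P (e i))) (fun i => Hp_mem _ (fun j => hPm1 _ j)) (D + k)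
    (fun i => Hp_deg _ (fun j => hPd _ j)) (fun i => hpot' (e i)) q' hqR
  -- invariance
  have hinv : ∀ i j, Pot (P i j) (fun a => (p1 i).qs (s.fb.v a)) 0 := by
    intro i j
    apply inv_line U q' hqR _ (hv0 i) (hvU i) (P i j) (hPm1 i j) ((p1 i).map (s.fb.iL ⊔ s.fb.iB) ⊔ U) le_sup_right
    · intro a
      rw [hav]
      exact (havk i a).trans le_sup_left
    · rw [hPq]
      exact (hck i j.succ).trans le_sup_left
    · exact hline i
  have hfH : ∀ i, Pot (f - Hp (P i)) (fun a => (p1 i).qs (s.fb.v a)) 0 := by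
    intro i x c'
    have h1 := hpot' i x c'
    rw [map_sub, map_sub, map_zero, mul_zero]
    linear_combination h1
  refine ⟨W1, r, ⟨{ f := f, P := P, hf := ?_, hP := ?_, deg := hdeg, f0 := hf0, ev := ?_, dv := ?_ }⟩⟩
  · rw [hU, hp1] at hf
    exact hf
  · intro i j
    exact hPm i j
  · intro i j
    exact hPe i j
  · intro i R r' y c'
    have e1 := pot_ext r' (hfH i) y c'
    have e2 := fun j => pot_ext r' (hinv i j) y c'
    have e3 : ∀ a, r'.qs ((p1 i).qs (s.fb.v a)) = r'.qs ((r.comp (p i)).qs (s.fb.v a)) := by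
      intro a
      rw [hp1]
    simp only [map_zero, mul_zero, map_sub, map_Hp, eval_Hp] at e1 e2
    have e4 : y 0 + c' * r'.qs ((p1 i).qs (s.fb.v 0)) = y 0 + c' := by
      rw [hv0, map_one, mul_one]
    rw [e4] at e1
    have e5 : ∀ j, MvPolynomial.eval (fun a => y a + c' * r'.qs ((p1 i).qs (s.fb.v a)))
        (MvPolynomial.map r'.qs (P i j)) = MvPolynomial.eval y (MvPolynomial.map r'.qs (P i j)) :=
      fun j => sub_eq_zero.mp (e2 j)
    simp only [e5] at e1
    simp only [sub_mul, Finset.sum_sub_distrib]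
    have e6 : (fun a => y a + c' * r'.qs ((r.comp (p i)).qs (s.fb.v a))) =
        fun a => y a + c' * r'.qs ((p1 i).qs (s.fb.v a)) := by
      funext a
      rw [e3]
    rw [e6]
    linear_combination e1

end

end Pool.Agent.Helper99.CC
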