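import Pool.Agent.Helper99.CC.Exi
import Pool.Agent.Helper99.EC.FinB

/-! Exact entropy calculus, curved leaves: THE FINITE LEAF STATEMENT. Over a flat real base the top coordinate (a
polynomial of the height along the lines) is, on a typical event, a polynomial of the base point whose coefficients are
at the same time functions of the cell of the point and functions of the cell of the line. -/

set_option autoImplicit false

namespace Pool.Agent.Helper99.CC

open Finset Filter Topology Pool.Agent.Helper69.RK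
open Pool.Agent.Helper31.EC Pool.Agent.Helper31.EC.Sp QS
open Pool.Agent.Helper38.NS Pool.Agent.Helper38.NS.FB Pool.Agent.Helper99.EC
open Pool.Agent.Helper50.CV (CB)
open Pool.Agent.Helper25.EC

noncomputable section

open Pool.Agent.Helper3.LF (Mon)

/-- tame functions which represent a curved system over a flat base -/
structure FTC (T : Sp) (d k : ℕ) where
  t : TR T
  a : Fin d → TR T
  x : Fin d → TR T
  c : Fin (k + 1) → TR T

namespace FTC

variable {T : Sp} {d k : ℕ}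

/-- the system in the ring of functions to full precision -/
def cb (s : FTC T d k) : CB T d k := ⟨QS.mk s.t, fun i => QS.mk (s.a i), fun i => QS.mk (s.x i), fun j => QS.mk (s.c j)⟩

/-- the base point -/
def q (s : FTC T d k) : Fin (d + 1) → TR T := Fin.cons s.t fun i => s.a i + s.t * s.x i

/-- the top coordinate -/
def z (s : FTC T d k) : TR T := ∑ j : Fin (k + 1), s.c j * s.t ^ (j : ℕ)

theorem fb_q (s : FTC T d k) (i : Fin (d + 1)) : s.cb.fb.q i = QS.mk (s.q i) := by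
  induction i using Fin.cases with
  | zero => rfl
  | succ i =>
    show QS.mk (s.a i) + QS.mk s.t * QS.mk (s.x i) = QS.mk (s.a i + s.t * s.x i)
    rw [map_add, map_mul]

theorem fb_z (s : FTC T d k) : s.cb.fb.z = QS.mk s.z := by
  rw [s.cb.z_eq]
  unfold pe z
  rw [map_sum]
  apply Finset.sum_congr rfl
  intro j _
  rw [map_mul, map_pow]
  rfl

/-- the point -/
def pv (s : FTC T d k) : T.VV (d + 1 + 1) := TR.vec (Fin.snoc s.q s.z)

/-- the line -/
def lv (s : FTC T d k) : T.VV (d + d + (k + 1)) := TR.vec (Fin.append (Fin.append s.a s.x) s.c)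

theorem pv_dg (s : FTC T d k) : s.pv.dg 1 = vd s.cb.fb.fQ 1 := by
  rw [FB.vd_fP]
  unfold pv
  rw [TR.vec_dg_eq]
  have h1 : s.cb.fb.iP = vd s.cb.fb.q 1 ⊔ dg s.cb.fb.z 1 := by
    rw [FB.vd_q]
    unfold FB.iP FB.iZ
    rw [sup_assoc]
  rw [h1]
  apply le_antisymm
  · apply Finset.sup_le
    intro i _
    induction i using Fin.lastCases with
    | last =>
      rw [Fin.snoc_last, ← dg_mk _ le_rfl, ← s.fb_z]
      exact le_sup_right
    | cast i =>
      rw [Fin.snoc_castSucc, ← dg_mk _ le_rfl, ← s.fb_q]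
      exact (dg_le_vd s.cb.fb.q 1 i).trans le_sup_left
  · apply sup_le
    · rw [vd_le]
      intro i
      rw [s.fb_q, dg_mk _ le_rfl]
      have := Finset.le_sup (f := fun i => TR.dg ((Fin.snoc s.q s.z : Fin (d + 1 + 1) → TR T) i) 1)
        (Finset.mem_univ i.castSucc)
      rw [Fin.snoc_castSucc] at this
      exact this
    · rw [s.fb_z, dg_mk _ le_rfl]
      have := Finset.le_sup (f := fun i => TR.dg ((Fin.snoc s.q s.z : Fin (d + 1 + 1) → TR T) i) 1)
        (Finset.mem_univ (Fin.last (d + 1)))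
      rw [Fin.snoc_last] at this
      exact this

end FTC

/-- there is a star in general position -/
def HasGP {T : Sp} {d k : ℕ} (s : CB T d k) : Prop :=
  ∃ (ι : Type) (_ : Fintype ι) (W : Sp) (p : ι → Pj W T), IsStar s.fb.fQ p ∧ GPs s p

/-- one bush with independent directions -/
theorem hasGP_of_unit {T : Sp} {d k : ℕ} (s : CB T d k) (C : CQ T s.fb.fQ d) (hC : IsUnit (Mat C).det) : HasGP s := by
  classical
  refine ⟨Fin (d + 1), inferInstance, C.W, C.p, ⟨fun i j a => C.com i j a, fun i0 A => ?_⟩, ⟨⟨0⟩, fun i => ?_⟩⟩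
  · rw [C.p_vd i0 1]
    exact C.ind A
  · refine ⟨Equiv.swap 0 i, Equiv.swap_apply_left 0 i, ?_⟩
    have h1 : dirM s C.p (Equiv.swap 0 i) = (Mat C).submatrix (Equiv.swap 0 i) id := rfl
    rw [h1, Matrix.det_permute]
    apply IsUnit.mul _ hC
    rcases Int.units_eq_one_or (Equiv.Perm.sign (Equiv.swap (0 : Fin (d + 1)) i)) with h | h
    · rw [h]; simp
    · rw [h]; simp

theorem hasGP_of_T3 {T : Sp} {d k : ℕ} (s : CB T d k) (h3 : s.fb.T3) : HasGP s := by
  obtain ⟨C⟩ := exists_CQ s.fb.fQ d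
  exact hasGP_of_unit s C (h3 C)

/-- THE FINITE LEAF STATEMENT (76 (A)-(D1)) for a curved system over a flat real base -/
theorem finite_leafC {T : Sp} {d k K : ℕ} (tr : FTC T d k) (hP0 : CPOT tr.cb K) (hy : tr.cb.Hyp)
    (hq : Rl tr.cb.fb.q ⊥) {a0 c : ℝ} (ha0 : a0 < 1) (hc : 0 < c)
    (hu : UnS tr.cb.fb.z (tr.cb.fb.iT ⊔ tr.cb.fb.iY) a0 c) (hG : HasGP tr.cb) {δ ε : ℝ} (hδ : 0 < δ)
    (hε : 0 < ε) : ∀ᶠ n in UF, LfF (T.F n) K (fun i => TR.ev (tr.q i) n) (TR.ev tr.z n)
      (Setoid.ker (tr.pv.cellv 1 n)) (Setoid.ker (tr.lv.cellv 1 n)) (2 ^ (δ * (T.F n).n)) (T.dl (1 - δ) n) ε := by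
  classical
  set s := tr.cb with hsdef
  have hX : I s.fb.iX s.fb.iP ⊥ = 0 := hy.s1
  obtain ⟨ι, _, W0, p, hst0, hsp0⟩ := hG
  obtain ⟨W, w, ⟨Φ⟩⟩ := hP0 ι inferInstance W0 p hst0 hsp0
  have hst := hst0.pull w
  have hsp := hsp0.pull w
  have hfree := Φ.free hP0 hX hq hst hsp
  obtain ⟨i0⟩ := hsp.ne
  set p0 : Pj W T := w.comp (p i0) with hp0
  -- the coefficients
  set Cf : Mon (d + 1) K → QS W := fun a => if a.ex = 0 then Φ.g i0 else Φ.f.coeff a.ex with hCf
  set CR : Mon (d + 1) K → TR W := fun a => rep (Cf a) with hCR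
  have hmk : ∀ a, QS.mk (CR a) = Cf a := fun a => mk_rep _
  have hq0 : ∀ i, p0.qs (QS.mk (tr.q i)) = p0.qs (s.fb.q i) := fun i => by rw [hsdef, tr.fb_q]
  have hz0 : p0.qs (QS.mk tr.z) = p0.qs s.fb.z := by rw [hsdef, tr.fb_z]
  -- the expansion of `z`
  have hz : p0.qs (QS.mk tr.z) =
      ∑ a : Mon (d + 1) K, QS.mk (CR a) * ∏ i, p0.qs (QS.mk (tr.q i)) ^ (a.1 i : ℕ) := by
    have e1 : p0.qs s.fb.z = Φ.g i0 + MvPolynomial.eval (fun a => p0.qs (s.fb.q a)) Φ.f := by
      show p0.qs s.fb.z = (p0.qs s.fb.z - MvPolynomial.eval (fun a => p0.qs (s.fb.q a)) Φ.f) + _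
      ring
    rw [hz0, e1, eval_mon Φ.f Φ.deg]
    -- the constant term
    have e2 : ∃ a0 : Mon (d + 1) K, a0.ex = 0 := by
      refine ⟨⟨fun _ => 0, by simp⟩, ?_⟩
      ext i
      rfl
    obtain ⟨a0, ha0⟩ := e2
    have hinj : Function.Injective (Mon.ex : Mon (d + 1) K → Fin (d + 1) →₀ ℕ) := by
      intro a b h
      apply Subtype.ext
      funext i
      apply Fin.ext
      exact DFunLike.congr_fun h i
    rw [← Finset.add_sum_erase _ _ (Finset.mem_univ a0), ← Finset.add_sum_erase _ (fun a : Mon (d + 1) K =>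
      QS.mk (CR a) * ∏ i, p0.qs (QS.mk (tr.q i)) ^ (a.1 i : ℕ)) (Finset.mem_univ a0)]
    have e3 : ∏ i, p0.qs (QS.mk (tr.q i)) ^ (a0.1 i : ℕ) = 1 := by
      apply Finset.prod_eq_one
      intro i _
      have h1 : (a0.1 i : ℕ) = 0 := DFunLike.congr_fun ha0 i
      rw [h1, pow_zero]
    rw [e3, mul_one, hmk]
    have e4 : Cf a0 = Φ.g i0 := by
      show (if a0.ex = 0 then Φ.g i0 else Φ.f.coeff a0.ex) = _
      rw [if_pos ha0]
    rw [e4, ha0, Φ.f0, zero_mul, zero_add]
    congr 1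
    apply Finset.sum_congr rfl
    intro a ha
    have h1 : a.ex ≠ 0 := by
      intro hc0
      exact (Finset.mem_erase.mp ha).1 (hinj (hc0.trans ha0.symm))
    have h2 : Cf a = Φ.f.coeff a.ex := by
      show (if a.ex = 0 then Φ.g i0 else Φ.f.coeff a.ex) = _
      rw [if_neg h1]
    rw [hmk, h2]
    congr 1
    apply Finset.prod_congr rfl
    intro i _
    rw [hq0]
  -- copies given the point
  have hB : ∀ a, (two1 (cv p0 tr.pv)).qs (QS.mk (CR a)) = (two2 (cv p0 tr.pv)).qs (QS.mk (CR a)) := by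
    set r1 := two1 (cv p0 tr.pv) with hr1
    set r2 := two2 (cv p0 tr.pv) with hr2
    have c0 : ∀ a, r1.qs (p0.qs (s.fb.fQ a)) = r2.qs (p0.qs (s.fb.fQ a)) := by
      intro a
      rcases a with i | i
      · have h1 := two_com p0 tr.pv i.castSucc
        have h2 : TR.cor tr.pv i.castSucc = tr.q i := by
          unfold FTC.pv
          rw [TR.cor_vec, Fin.snoc_castSucc]
        rw [h2, ← tr.fb_q] at h1
        exact h1
      · have h1 := two_com p0 tr.pv (Fin.last (d + 1))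
        have h2 : TR.cor tr.pv (Fin.last (d + 1)) = tr.z := by
          unfold FTC.pv
          rw [TR.cor_vec, Fin.snoc_last]
        rw [h2, ← tr.fb_z] at h1
        exact h1
    have hc1 : ∀ i a, r1.qs ((w.comp (p i)).qs (s.fb.fQ a)) = r2.qs ((w.comp (p i)).qs (s.fb.fQ a)) := by
      intro i a
      rw [hst.com i i0 a]
      exact c0 a
    have hI1 : ∀ i x y, I (r1.map x) (r2.map y) (r1.map ((w.comp (p i)).map (vd s.fb.fQ 1))) = 0 := by
      intro i x y
      rw [hst.com_vd i i0, ← tr.pv_dg]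
      exact two_ind p0 tr.pv x y
    have hf := Φ.agree hP0 hX hq hst hsp r1 r2 hc1 hI1
    have hfc : ∀ m, r1.qs (Φ.f.coeff m) = r2.qs (Φ.f.coeff m) := by
      intro m
      have := congrArg (MvPolynomial.coeff m) hf
      rwa [MvPolynomial.coeff_map, MvPolynomial.coeff_map] at this
    have hg : r1.qs (Φ.g i0) = r2.qs (Φ.g i0) := by
      unfold CPot.g
      rw [map_sub, map_sub, qs_eval, qs_eval, hf]
      have e1 : r1.qs ((w.comp (p i0)).qs s.fb.z) = r2.qs ((w.comp (p i0)).qs s.fb.z) := c0 (Sum.inr ())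
      have e2 : (fun a => r1.qs ((w.comp (p i0)).qs (s.fb.q a))) = fun a => r2.qs ((w.comp (p i0)).qs (s.fb.q a)) := by
        funext a
        exact c0 (Sum.inl a)
      rw [e1, e2]
    intro a
    rw [hmk]
    show r1.qs (if a.ex = 0 then Φ.g i0 else Φ.f.coeff a.ex) = r2.qs (if a.ex = 0 then Φ.g i0 else Φ.f.coeff a.ex)
    split_ifs
    · exact hg
    · exact hfc _
  -- copies given the line
  have hXX : ∀ a, (two1 (cv p0 tr.lv)).qs (QS.mk (CR a)) = (two2 (cv p0 tr.lv)).qs (QS.mk (CR a)) := by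
    set r1 := two1 (cv p0 tr.lv) with hr1
    set r2 := two2 (cv p0 tr.lv) with hr2
    have ca : ∀ j, r1.qs (p0.qs (s.a j)) = r2.qs (p0.qs (s.a j)) := by
      intro j
      have h1 := two_com p0 tr.lv (Fin.castAdd (k + 1) (Fin.castAdd d j))
      have h2 : TR.cor tr.lv (Fin.castAdd (k + 1) (Fin.castAdd d j)) = tr.a j := by
        unfold FTC.lv
        rw [TR.cor_vec, Fin.append_left, Fin.append_left]
      rw [h2] at h1
      exact h1
    have cx : ∀ j, r1.qs (p0.qs (s.x j)) = r2.qs (p0.qs (s.x j)) := by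
      intro j
      have h1 := two_com p0 tr.lv (Fin.castAdd (k + 1) (Fin.natAdd d j))
      have h2 : TR.cor tr.lv (Fin.castAdd (k + 1) (Fin.natAdd d j)) = tr.x j := by
        unfold FTC.lv
        rw [TR.cor_vec, Fin.append_left, Fin.append_right]
      rw [h2] at h1
      exact h1
    have cc : ∀ j, r1.qs (p0.qs (s.c j)) = r2.qs (p0.qs (s.c j)) := by
      intro j
      have h1 := two_com p0 tr.lv (Fin.natAdd (d + d) j)
      have h2 : TR.cor tr.lv (Fin.natAdd (d + d) j) = tr.c j := by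
        unfold FTC.lv
        rw [TR.cor_vec, Fin.append_right]
      rw [h2] at h1
      exact h1
    obtain ⟨hf, hg⟩ := Φ.line_agree hy hq hst hsp hfree i0 ha0 hc hu r1 r2 ca cx cc
    have hfc : ∀ m, r1.qs (Φ.f.coeff m) = r2.qs (Φ.f.coeff m) := by
      intro m
      have := congrArg (MvPolynomial.coeff m) hf
      rwa [MvPolynomial.coeff_map, MvPolynomial.coeff_map] at this
    intro a
    rw [hmk]
    show r1.qs (if a.ex = 0 then Φ.g i0 else Φ.f.coeff a.ex) = r2.qs (if a.ex = 0 then Φ.g i0 else Φ.f.coeff a.ex)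
    split_ifs
    · exact hg
    · exact hfc _
  exact lfF_of p0 tr.q tr.z tr.pv tr.lv CR hz hB hXX hδ hε

/-- the same from the slopes theorem -/
theorem finite_leafS {T : Sp} {d k D : ℕ} (tr : FTC T d k) (hS : SLO tr.cb D) (hy : tr.cb.Hyp)
    (hq : Rl tr.cb.fb.q ⊥) {a0 c : ℝ} (ha0 : a0 < 1) (hc : 0 < c)
    (hu : UnS tr.cb.fb.z (tr.cb.fb.iT ⊔ tr.cb.fb.iY) a0 c) (hG : HasGP tr.cb) {δ ε : ℝ} (hδ : 0 < δ)
    (hε : 0 < ε) : ∀ᶠ n in UF, LfF (T.F n) (D + k) (fun i => TR.ev (tr.q i) n) (TR.ev tr.z n)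
      (Setoid.ker (tr.pv.cellv 1 n)) (Setoid.ker (tr.lv.cellv 1 n)) (2 ^ (δ * (T.F n).n)) (T.dl (1 - δ) n) ε :=
  finite_leafC tr (cpot tr.cb hS hy hq ha0 hc hu) hy hq ha0 hc hu hG hδ hε

end

end Pool.Agent.Helper99.CC
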