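import Pool.Agent.Helper99.CC.Def
import Pool.Agent.Helper19.SP.WalkF

/-! Exact entropy calculus, curved leaves: the leaf function of a star `g = z - f(q)` is independent of the base point,
robustly unsaturated, and two leaf functions of stars which have a common line agree. -/

set_option autoImplicit false

namespace Pool.Agent.Helper99.CC

open Pool.Agent.Helper31.EC QS
open Pool.Agent.Helper38.NS Pool.Agent.Helper99.EC
open Pool.Agent.Helper50.CV (CB)

noncomputable section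

variable {T : Sp} {d k : ℕ} {s : CB T d k} {K : ℕ} {ι : Type} [Fintype ι] {W : Sp} {p : ι → Pj W T}

/-- the time is real over a line and the directions of the other lines -/
theorem ht_line (hy : s.Hyp) (hs : IsStar s.fb.fQ p) (l : ι) :
    h ((p l).map s.fb.iT) ((p l).map (s.fb.iL ⊔ s.fb.iB) ⊔ Finset.univ.sup fun i => (p i).map s.fb.iX) = 1 := by
  classical
  have hX := hy.s1
  obtain ⟨U', hU'⟩ : ∃ U', U' = (Finset.univ.erase l).sup fun i => (p i).map s.fb.iX := ⟨_, rfl⟩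
  have h1 := hs.I_free_line l (s := Finset.univ.erase l) (Finset.notMem_erase l _) (fun _ => s.fb.iX)
    (fun _ => by rw [FB.vd_fP]; exact hX) (s.fb.iL ⊔ s.fb.iB)
  rw [FB.vd_fP, ← hU'] at h1
  have h2 : I U' ((p l).map s.fb.iT) ((p l).map (s.fb.iL ⊔ s.fb.iB)) = 0 := by
    refine ind_of h1 bot_le (le_sup_right.trans le_sup_left) le_sup_left ?_
    refine le_trans ?_ le_sup_left
    refine le_trans ?_ le_sup_left
    apply (p l).map_mono
    unfold FB.iP
    order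
  rw [I_zero_iff_h', Pj.h_map, hy.ht] at h2
  apply le_antisymm
  · refine (h_anti (le_sup_left : (p l).map (s.fb.iL ⊔ s.fb.iB) ≤ _)).trans ?_
    rw [Pj.h_map, hy.ht]
  · refine h2.ge.trans (h_anti ?_)
    apply sup_le (le_sup_right)
    apply Finset.sup_le
    intro i _
    by_cases hi : i = l
    · rw [hi]
      refine le_trans ?_ le_sup_right
      apply (p l).map_mono
      exact s.fb.iX_le.trans le_sup_left
    · refine le_trans ?_ le_sup_left
      rw [hU']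
      exact Finset.le_sup (f := fun i => (p i).map s.fb.iX) (Finset.mem_erase.mpr ⟨hi, Finset.mem_univ _⟩)

namespace CPot

/-- the value of the leaf function -/
def g (Φ : CPot s K p) (i0 : ι) : QS W :=
  (p i0).qs s.fb.z - MvPolynomial.eval (fun a => (p i0).qs (s.fb.q a)) Φ.f

/-- (B): the value of the leaf function is independent of the base point -/
theorem indep (hy : s.Hyp) (hs : IsStar s.fb.fQ p) (hsp : GPs s p)
    (Φ : CPot s K p) (hfree : Φ.f ∈ PK (⊥ : W.L)) (i0 : ι) :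
    I (vd (fun a => (p i0).qs (s.fb.q a)) 1) (dg (Φ.g i0) 1) ⊥ = 0 := by
  classical
  obtain ⟨i1⟩ := hsp.ne
  obtain ⟨e, -, he⟩ := hsp.cov i1
  set U := Finset.univ.sup fun i => (p i).map s.fb.iX with hU
  -- the walk
  set G : (ι × Fin (d + 1)) ⊕ Φ.f.support → QS W :=
    Sum.elim (fun a => (p a.1).qs (s.fb.v a.2)) (fun m => Φ.f.coeff m.1) with hG
  set t : QS W := (p i0).qs s.t with ht
  set F : ι → ((ι × Fin (d + 1)) ⊕ Φ.f.support) ⊕ (Fin (d + 1) ⊕ Fin (k + 1)) → QS W := fun l =>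
    Sum.elim G (Sum.elim (fun a => (p l).qs (s.fb.av a)) (fun j => (p l).qs (s.c j))) with hF
  have hct : ∀ i, (p i).qs s.t = t := fun i => hs.com i i0 (Sum.inl 0)
  have hcz : ∀ i, (p i).qs s.fb.z = (p i0).qs s.fb.z := fun i => hs.com i i0 (Sum.inr ())
  have hcq : ∀ i a, (p i).qs (s.fb.q a) = (p i0).qs (s.fb.q a) := fun i a => hs.com i i0 (Sum.inl a)
  have hVd : ∀ l, vd (F l) 1 ≤ (p l).map (s.fb.iL ⊔ s.fb.iB) ⊔ U := by
    intro l
    have hline : ∀ x : QS T, dg x 1 ≤ s.fb.iL ⊔ s.fb.iB → dg ((p l).qs x) 1 ≤ (p l).map (s.fb.iL ⊔ s.fb.iB) ⊔ U := by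
      intro x hx
      rw [(p l).qs_dg]
      exact ((p l).map_mono hx).trans le_sup_left
    rw [vd_le]
    rintro ((a | m) | (a | j))
    · show dg ((p a.1).qs (s.fb.v a.2)) 1 ≤ _
      rw [(p a.1).qs_dg]
      refine le_trans ?_ le_sup_right
      refine le_trans ((p a.1).map_mono (s.fb.v_le a.2)) ?_
      exact Finset.le_sup (f := fun i => (p i).map s.fb.iX) (Finset.mem_univ a.1)
    · show dg (Φ.f.coeff m.1) 1 ≤ _
      exact (hfree m.1).trans bot_le
    · show dg ((p l).qs (s.fb.av a)) 1 ≤ _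
      exact hline _ ((s.fb.av_le a).trans le_sup_left)
    · show dg ((p l).qs (s.c j)) 1 ≤ _
      apply hline
      induction j using Fin.cases with
      | zero => exact le_sup_right
      | succ j => exact (hy.hF j).trans le_sup_left
  have hreal : ∀ l, h (dg t 1) (vd (F l) 1) = 1 := by
    intro l
    apply le_antisymm (h_dg_le_one _ _)
    have h1 := ht_line hy hs l
    have h2 : dg t 1 = (p l).map s.fb.iT := by
      rw [← hct l, (p l).qs_dg]
      rfl
    rw [h2]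
    exact h1.ge.trans (h_anti (hVd l))
  obtain ⟨w⟩ := exists_walkF F t hreal (d + 1) e
  -- the frozen labels
  have wv : ∀ a i b, (w.p a).qs ((p i).qs (s.fb.v b)) = (w.p 0).qs ((p i).qs (s.fb.v b)) :=
    fun a i b => w.com _ (fun _ => Sum.inl (Sum.inl (i, b))) (fun _ => rfl) a
  have wf : ∀ a, MvPolynomial.map (w.p a).qs Φ.f = MvPolynomial.map (w.p 0).qs Φ.f := by
    intro a
    ext m
    rw [MvPolynomial.coeff_map, MvPolynomial.coeff_map]
    by_cases hm : m ∈ Φ.f.support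
    · exact w.com _ (fun _ => Sum.inl (Sum.inr ⟨m, hm⟩)) (fun _ => rfl) a
    · rw [MvPolynomial.notMem_support_iff.mp hm, map_zero, map_zero]
  have wt : ∀ l, (w.p l.succ).qs t = (w.p l.castSucc).qs t + w.τ l := by
    intro l
    rw [w.ht l]
    ring
  have wq : ∀ l a, (w.p l.succ).qs ((p i0).qs (s.fb.q a)) = (w.p l.castSucc).qs ((p i0).qs (s.fb.q a)) +
      w.τ l * (w.p l.castSucc).qs ((p (e l)).qs (s.fb.v a)) := by
    intro l a
    have h1 := w.hF l (Sum.inr (Sum.inl a))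
    have h2 : F (e l) (Sum.inr (Sum.inl a)) = (p (e l)).qs (s.fb.av a) := rfl
    rw [h2] at h1
    have h3 : ∀ b, (w.p b).qs ((p i0).qs (s.fb.q a)) = (w.p b).qs ((p (e l)).qs (s.fb.av a)) +
        (w.p b).qs t * (w.p b).qs ((p (e l)).qs (s.fb.v a)) := by
      intro b
      rw [← hcq (e l) a, cq_eq s a, map_add, map_mul, map_add, map_mul, hct]
    rw [h3, h3, h1, wt l, wv l.succ, wv l.castSucc]
    ring
  have wz : ∀ l, (w.p l.succ).qs ((p i0).qs s.fb.z) = (w.p l.castSucc).qs ((p i0).qs s.fb.z) +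
      ∑ j : Fin k, (((w.p l.castSucc).qs t + w.τ l) ^ ((j : ℕ) + 1) - (w.p l.castSucc).qs t ^ ((j : ℕ) + 1)) *
        (w.p l.castSucc).qs ((p (e l)).qs (s.c j.succ)) := by
    intro l
    have h1 : ∀ j, (w.p l.succ).qs ((p (e l)).qs (s.c j)) = (w.p l.castSucc).qs ((p (e l)).qs (s.c j)) :=
      fun j => w.hF l (Sum.inr (Sum.inr j))
    have h3 : ∀ b, (w.p b).qs ((p i0).qs s.fb.z) = (w.p b).qs ((p (e l)).qs (s.c 0)) +
        ∑ j : Fin k, (w.p b).qs t ^ ((j : ℕ) + 1) * (w.p b).qs ((p (e l)).qs (s.c j.succ)) := by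
      intro b
      rw [← hcz (e l), z_exp s, map_add, map_sum, map_add, map_sum]
      congr 1
      apply Finset.sum_congr rfl
      intro j _
      rw [map_mul, map_pow, map_mul, map_pow, hct]
    rw [h3, h3, h1, wt l]
    simp only [h1, sub_mul, Finset.sum_sub_distrib]
    ring
  -- the value is conserved
  have wg1 : ∀ l : Fin (d + 1), (w.p l.succ).qs (Φ.g i0) = (w.p l.castSucc).qs (Φ.g i0) := by
    intro l
    have h1 := Φ.dv (e l) w.R (w.p l.castSucc) (fun a => (w.p l.castSucc).qs ((p i0).qs (s.fb.q a))) (w.τ l)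
    have h2 : ∀ j, MvPolynomial.eval (fun a => (w.p l.castSucc).qs ((p i0).qs (s.fb.q a)))
        (MvPolynomial.map (w.p l.castSucc).qs (Φ.P (e l) j)) = (w.p l.castSucc).qs ((p (e l)).qs (s.c j.succ)) := by
      intro j
      rw [← qs_eval]
      congr 1
      rw [← Φ.ev (e l) j]
      congr 2
      funext a
      exact (hcq (e l) a).symm
    simp only [h2, cq_zero s, ← ht] at h1
    unfold g
    rw [map_sub, map_sub, qs_eval, qs_eval, wf l.succ]
    rw [wf l.castSucc] at h1 ⊢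
    have h3 : (fun a => (w.p l.succ).qs ((p i0).qs (s.fb.q a))) = fun a =>
        (w.p l.castSucc).qs ((p i0).qs (s.fb.q a)) + w.τ l * (w.p l.castSucc).qs ((p (e l)).qs (s.fb.v a)) := by
      funext a
      exact wq l a
    rw [h3, wz l]
    linear_combination -h1
  have wg : ∀ l : Fin (d + 1 + 1), (w.p l).qs (Φ.g i0) = (w.p 0).qs (Φ.g i0) := by
    intro l
    induction l using Fin.induction with
    | zero => rfl
    | succ l ih => rw [wg1 l]; exact ih
  -- the displacement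
  have wd : ∀ (l : ℕ) (hl : l < d + 1 + 1) a, (w.p ⟨l, hl⟩).qs ((p i0).qs (s.fb.q a)) =
      (w.p 0).qs ((p i0).qs (s.fb.q a)) + ∑ j : Fin (d + 1), if (j : ℕ) < l then
        w.τ j * (w.p 0).qs ((p (e j)).qs (s.fb.v a)) else 0 := by
    intro l
    induction l with
    | zero =>
      intro hl a
      simp
    | succ l ih =>
      intro hl a
      have hl' : l < d + 1 := Nat.lt_of_succ_lt_succ hl
      have h1 := wq ⟨l, hl'⟩ a
      have h2 := ih (Nat.lt_of_succ_lt hl) a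
      have h3 : (⟨l, hl'⟩ : Fin (d + 1)).castSucc = ⟨l, Nat.lt_of_succ_lt hl⟩ := rfl
      have h4 : (⟨l, hl'⟩ : Fin (d + 1)).succ = ⟨l + 1, hl⟩ := rfl
      rw [h3, h4] at h1
      rw [h1, h2, wv ⟨l, Nat.lt_of_succ_lt hl⟩, add_assoc]
      congr 1
      rw [← Finset.sum_erase_add Finset.univ (fun j : Fin (d + 1) => if (j : ℕ) < l then
        w.τ j * (w.p 0).qs ((p (e j)).qs (s.fb.v a)) else 0) (Finset.mem_univ (⟨l, hl'⟩ : Fin (d + 1))),
        ← Finset.sum_erase_add Finset.univ (fun j : Fin (d + 1) => if (j : ℕ) < l + 1 then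
        w.τ j * (w.p 0).qs ((p (e j)).qs (s.fb.v a)) else 0) (Finset.mem_univ (⟨l, hl'⟩ : Fin (d + 1)))]
      rw [if_neg (lt_irrefl l), add_zero, if_pos (Nat.lt_succ_self l)]
      congr 1
      apply Finset.sum_congr rfl
      intro j hj
      have h5 : (j : ℕ) ≠ l := by
        intro hc
        exact (Finset.mem_erase.mp hj).1 (Fin.ext hc)
      by_cases h6 : (j : ℕ) < l
      · rw [if_pos h6, if_pos (Nat.lt_succ_of_lt h6)]
      · rw [if_neg h6, if_neg (fun hc => h6 (lt_of_le_of_ne (Nat.lt_succ_iff.mp hc) h5))]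
  obtain ⟨q1, hq1⟩ : ∃ q1 : Fin (d + 1) → QS w.R, q1 = fun a => (w.p (Fin.last (d + 1))).qs ((p i0).qs (s.fb.q a)) :=
    ⟨_, rfl⟩
  obtain ⟨q0, hq0⟩ : ∃ q0 : Fin (d + 1) → QS w.R, q0 = fun a => (w.p 0).qs ((p i0).qs (s.fb.q a)) := ⟨_, rfl⟩
  obtain ⟨V, hV⟩ : ∃ V : Matrix (Fin (d + 1)) (Fin (d + 1)) (QS w.R),
    V = Matrix.of fun i a => (w.p 0).qs ((p (e i)).qs (s.fb.v a)) := ⟨_, rfl⟩
  have hVu : IsUnit V.det := by
    have h1 : V = (Matrix.of fun i a => (p (e i)).qs (s.fb.v a)).map (w.p 0).qs := by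
      rw [hV]
      rfl
    rw [h1]
    have h2 := RingHom.map_det (w.p 0).qs (Matrix.of fun i a => (p (e i)).qs (s.fb.v a))
    rw [RingHom.mapMatrix_apply] at h2
    rw [← h2]
    exact IsUnit.map (w.p 0).qs he
  have hdis : Matrix.vecMul w.τ V = fun a => q1 a - q0 a := by
    funext a
    have h1 := wd (d + 1) (Nat.lt_succ_self _) a
    have h2 : (⟨d + 1, Nat.lt_succ_self _⟩ : Fin (d + 1 + 1)) = Fin.last (d + 1) := rfl
    rw [h2] at h1
    rw [hq1, hq0]
    show Matrix.vecMul w.τ V a = (w.p (Fin.last (d + 1))).qs ((p i0).qs (s.fb.q a)) - (w.p 0).qs ((p i0).qs (s.fb.q a))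
    rw [h1, add_sub_cancel_left, hV]
    unfold Matrix.vecMul dotProduct
    apply Finset.sum_congr rfl
    intro j _
    rw [if_pos j.2]
    rfl
  have hτ : w.τ = Matrix.vecMul (fun a => q1 a - q0 a) V⁻¹ := by
    rw [← hdis, Matrix.vecMul_vecMul, Matrix.mul_nonsing_inv _ hVu, Matrix.vecMul_one]
  -- knowledge
  obtain ⟨X, hX'⟩ : ∃ X : w.R.L, X = (w.p 0).map (dg (Φ.g i0) 1 ⊔ (vd (fun a => (p i0).qs (s.fb.q a)) 1 ⊔ U)) := ⟨_, rfl⟩
  have hVk : ∀ i j, dg (V i j) 1 ≤ vd q1 1 ⊔ X := by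
    intro i j
    rw [hV]
    show dg ((w.p 0).qs ((p (e i)).qs (s.fb.v j))) 1 ≤ _
    rw [(w.p 0).qs_dg, (p (e i)).qs_dg]
    refine le_trans ?_ le_sup_right
    rw [hX']
    apply (w.p 0).map_mono
    refine le_trans ?_ le_sup_right
    refine le_trans ?_ le_sup_right
    refine le_trans ((p (e i)).map_mono (s.fb.v_le j)) ?_
    exact Finset.le_sup (f := fun i => (p i).map s.fb.iX) (Finset.mem_univ (e i))
  have hτk : vd w.τ 1 ≤ vd q1 1 ⊔ X := by
    rw [vd_le]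
    intro j
    rw [hτ]
    unfold Matrix.vecMul dotProduct
    apply (Kn w.R 1 le_rfl (vd q1 1 ⊔ X)).sum_mem
    intro a _
    apply (Kn w.R 1 le_rfl (vd q1 1 ⊔ X)).mul_mem
    · apply (Kn w.R 1 le_rfl (vd q1 1 ⊔ X)).sub_mem
      · exact (dg_le_vd q1 1 a).trans le_sup_left
      · show dg (q0 a) 1 ≤ _
        refine le_trans ?_ le_sup_right
        rw [hX', hq0]
        show dg ((w.p 0).qs ((p i0).qs (s.fb.q a))) 1 ≤ _
        rw [(w.p 0).qs_dg]
        apply (w.p 0).map_mono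
        refine le_trans ?_ le_sup_right
        exact (dg_le_vd (fun a => (p i0).qs (s.fb.q a)) 1 a).trans le_sup_left
    · exact inv_mem V le_rfl _ hVk hVu a j
  have hrl := w.rl (dg (Φ.g i0) 1 ⊔ (vd (fun a => (p i0).qs (s.fb.q a)) 1 ⊔ U))
  rw [← hX'] at hrl
  unfold Rl at hrl
  rw [Fintype.card_fin] at hrl
  have hq1l : (d + 1 : ℕ) ≤ h (vd q1 1) X := by
    rw [← hrl]
    have h1 := h_mono (B := X) hτk
    rw [h_sup_right_of_le le_rfl] at h1
    exact h1
  have hq1u := h_sd_le q1 Finset.univ ⊥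
  rw [sd_univ, Finset.card_univ, Fintype.card_fin] at hq1u
  have hI : I (vd q1 1) ((w.p 0).map (dg (Φ.g i0) 1)) ⊥ = 0 := by
    apply le_antisymm _ (I_nonneg _ _ _)
    rw [I_eq]
    have h1 : h (vd q1 1) X ≤ h (vd q1 1) ((w.p 0).map (dg (Φ.g i0) 1) ⊔ ⊥) := by
      apply h_anti
      rw [sup_bot_eq, hX']
      exact (w.p 0).map_mono le_sup_left
    linarith
  have hgg : (w.p 0).map (dg (Φ.g i0) 1) = (w.p (Fin.last (d + 1))).map (dg (Φ.g i0) 1) := by
    rw [← Pj.qs_dg, ← Pj.qs_dg, wg (Fin.last (d + 1))]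
  rw [hgg, hq1, Pj.qs_vd (w.p (Fin.last (d + 1))) (fun a => (p i0).qs (s.fb.q a)) 1,
    ← Pj.map_bot (w.p (Fin.last (d + 1))), Pj.I_map] at hI
  exact hI

/-- (B): the value of the leaf function is robustly unsaturated -/
theorem uns (hy : s.Hyp) (hs : IsStar s.fb.fQ p) (hsp : GPs s p)
    (Φ : CPot s K p) (hfree : Φ.f ∈ PK (⊥ : W.L)) (i0 : ι) {a0 c : ℝ} (hu : UnS s.fb.z (s.fb.iT ⊔ s.fb.iY) a0 c) :
    UnS (Φ.g i0) ⊥ a0 c := by
  have hI := Φ.indep hy hs hsp hfree i0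
  have h1 : UnS ((p i0).qs s.fb.z) (vd (fun a => (p i0).qs (s.fb.q a)) 1) a0 c := by
    have h2 := hu.pull (p i0)
    refine h2.mono ?_
    rw [(p i0).qs_vd]
    apply (p i0).map_mono
    rw [s.fb.vd_q]
  have h2 : UnS (Φ.g i0) (vd (fun a => (p i0).qs (s.fb.q a)) 1) a0 c := by
    apply UnS.sub_known h1
    exact eval_mem hfree _ bot_le (fun a => dg_le_vd (fun a => (p i0).qs (s.fb.q a)) 1 a)
  exact UnS.drop h2 hI

/-- (C): the leaf functions of two stars with a common line agree -/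
theorem line_agree (hy : s.Hyp) (hq : Rl s.fb.q ⊥) (hs : IsStar s.fb.fQ p) (hsp : GPs s p)
    (Φ : CPot s K p) (hfree : Φ.f ∈ PK (⊥ : W.L)) (i0 : ι) {a0 c : ℝ} (ha0 : a0 < 1) (hc0 : 0 < c)
    (hu : UnS s.fb.z (s.fb.iT ⊔ s.fb.iY) a0 c) {R : Sp} (r1 r2 : Pj R W)
    (ha : ∀ j, r1.qs ((p i0).qs (s.a j)) = r2.qs ((p i0).qs (s.a j)))
    (hx : ∀ j, r1.qs ((p i0).qs (s.x j)) = r2.qs ((p i0).qs (s.x j)))
    (hc : ∀ j, r1.qs ((p i0).qs (s.c j)) = r2.qs ((p i0).qs (s.c j))) :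
    MvPolynomial.map r1.qs Φ.f = MvPolynomial.map r2.qs Φ.f ∧ r1.qs (Φ.g i0) = r2.qs (Φ.g i0) := by
  classical
  set q1 : Fin (d + 1) → QS R := fun a => r1.qs ((p i0).qs (s.fb.q a)) with hq1
  set q2 : Fin (d + 1) → QS R := fun a => r2.qs ((p i0).qs (s.fb.q a)) with hq2
  set f1 := MvPolynomial.map r1.qs Φ.f with hf1
  set f2 := MvPolynomial.map r2.qs Φ.f with hf2
  set δ : QS R := r2.qs ((p i0).qs s.t) - r1.qs ((p i0).qs s.t) with hδ
  have hv : ∀ a, r1.qs ((p i0).qs (s.fb.v a)) = r2.qs ((p i0).qs (s.fb.v a)) := by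
    intro a
    induction a using Fin.cases with
    | zero =>
      show r1.qs ((p i0).qs 1) = r2.qs ((p i0).qs 1)
      simp only [map_one]
    | succ a => exact hx a
  have hav : ∀ a, r1.qs ((p i0).qs (s.fb.av a)) = r2.qs ((p i0).qs (s.fb.av a)) := by
    intro a
    induction a using Fin.cases with
    | zero =>
      show r1.qs ((p i0).qs 0) = r2.qs ((p i0).qs 0)
      simp only [map_zero]
    | succ a => exact ha a
  have hq12 : q2 = fun a => q1 a + δ * r1.qs ((p i0).qs (s.fb.v a)) := by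
    funext a
    rw [hq1, hq2]
    simp only [cq_eq s a, map_add, map_mul, hδ]
    rw [hav a, hv a]
    ring
  have hq21 : q1 = fun a => q2 a + (-δ) * r2.qs ((p i0).qs (s.fb.v a)) := by
    funext a
    have := congrFun hq12 a
    rw [this, hv a]
    ring
  have e1 := Φ.dv i0 R r1 q1 δ
  have e2 := Φ.dv i0 R r2 q2 (-δ)
  have e3 : ∀ j, MvPolynomial.eval q1 (MvPolynomial.map r1.qs (Φ.P i0 j)) = r1.qs ((p i0).qs (s.c j.succ)) := by
    intro j
    rw [hq1, ← qs_eval, Φ.ev i0 j]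
  have e4 : ∀ j, MvPolynomial.eval q2 (MvPolynomial.map r2.qs (Φ.P i0 j)) = r1.qs ((p i0).qs (s.c j.succ)) := by
    intro j
    rw [hq2, ← qs_eval, Φ.ev i0 j, hc]
  have t1 : q1 0 = r1.qs ((p i0).qs s.t) := rfl
  have t2 : q2 0 = r1.qs ((p i0).qs s.t) + δ := by
    show r2.qs ((p i0).qs s.t) = _
    rw [hδ]
    ring
  have t3 : q2 0 + -δ = r1.qs ((p i0).qs s.t) := by
    rw [t2]
    ring
  rw [← hq12, t1] at e1
  rw [← hq21, t3, t2] at e2
  simp only [e3] at e1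
  simp only [e4] at e2
  have hz : r2.qs ((p i0).qs s.fb.z) = r1.qs ((p i0).qs s.fb.z) + ∑ j : Fin k,
      ((r1.qs ((p i0).qs s.t) + δ) ^ ((j : ℕ) + 1) - r1.qs ((p i0).qs s.t) ^ ((j : ℕ) + 1)) *
        r1.qs ((p i0).qs (s.c j.succ)) := by
    have h3 : ∀ r : Pj R W, r.qs ((p i0).qs s.fb.z) = r.qs ((p i0).qs (s.c 0)) +
        ∑ j : Fin k, r.qs ((p i0).qs s.t) ^ ((j : ℕ) + 1) * r.qs ((p i0).qs (s.c j.succ)) := by
      intro r
      rw [z_exp s, map_add, map_sum, map_add, map_sum]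
      congr 1
      apply Finset.sum_congr rfl
      intro j _
      rw [map_mul, map_pow, map_mul, map_pow]
    have t4 : r2.qs ((p i0).qs s.t) = r1.qs ((p i0).qs s.t) + δ := t2
    rw [h3, h3, t4, ← hc 0]
    simp only [← hc, sub_mul, Finset.sum_sub_distrib]
    ring
  have hg1 : r1.qs (Φ.g i0) = r1.qs ((p i0).qs s.fb.z) - MvPolynomial.eval q1 f1 := by
    unfold g
    rw [map_sub, qs_eval]
  have hg2 : r2.qs (Φ.g i0) = r2.qs ((p i0).qs s.fb.z) - MvPolynomial.eval q2 f2 := by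
    unfold g
    rw [map_sub, qs_eval]
  have hgg : r2.qs (Φ.g i0) = r1.qs (Φ.g i0) - MvPolynomial.eval q1 (f2 - f1) := by
    rw [hg1, hg2, hz, map_sub]
    simp only [sub_mul, Finset.sum_sub_distrib] at e2 ⊢
    linear_combination e2
  -- reality of the base point over the value
  have hI := Φ.indep hy hs hsp hfree i0
  have hqr : Rl (fun a => (p i0).qs (s.fb.q a)) (⊥ ⊔ dg (Φ.g i0) 1) := by
    have h1 := hq.pull (p i0)
    rw [Pj.map_bot] at h1
    unfold Rl at h1 ⊢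
    rw [I_zero_iff_h, sup_bot_eq] at hI
    rw [bot_sup_eq, hI, h1]
  have hqr1 : Rl q1 (⊥ ⊔ dg (r1.qs (Φ.g i0)) 1) := by
    have h1 := hqr.pull r1
    rw [r1.map_sup, Pj.map_bot, ← r1.qs_dg] at h1
    exact h1
  have hfk : f2 - f1 ∈ PK (⊥ : R.L) := by
    have h1 := map_PK r1 hfree
    have h2 := map_PK r2 hfree
    rw [Pj.map_bot] at h1 h2
    exact (PK _).sub_mem h2 h1
  have hu2 : UnS (r2.qs (Φ.g i0)) ⊥ a0 c := by
    have h1 := (Φ.uns hy hs hsp hfree i0 hu).pull r2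
    rwa [Pj.map_bot] at h1
  have h5 := absorb_mv ha0 hc0 (d + 1) ⊥ q1 (f2 - f1) (r2.qs (Φ.g i0)) (r1.qs (Φ.g i0)) hqr1 hfk hgg hu2
  have h6 : (f2 - f1).coeff 0 = 0 := by
    rw [MvPolynomial.coeff_sub, hf1, hf2, MvPolynomial.coeff_map, MvPolynomial.coeff_map, Φ.f0, map_zero, map_zero,
      sub_zero]
  rw [h6, map_zero] at h5
  have h7 : f1 = f2 := (sub_eq_zero.mp h5).symm
  refine ⟨h7, ?_⟩
  rw [hgg, h5, map_zero, sub_zero]

end CPot

end

end Pool.Agent.Helper99.CC
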